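import Pool.Agent.T2h36.CK.Count

/-! Complete 3-graphs on `L + 1` vertices contain one of the rare patterns of four vertices. -/

set_option autoImplicit false
set_option linter.unusedSectionVars false
open Finset

namespace Pool.Agent.T2h36.CK

section
variable {L K q : ℕ} [NeZero L] [NeZero K] [NeZero q]

/-- the rare pattern: two vertices of a cell, and two vertices of a cell of the same part or two
vertices of the next part in the same slab -/
def U (a b c d : Vx L K q) : Prop :=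
  a.1 = b.1 ∧ ((c.1 = d.1 ∧ c.1.1 = a.1.1) ∨
    ((c.1.1 = a.1.1 + 1 ∧ c.1.2.1 = a.1.2.1) ∧ (d.1.1 = a.1.1 + 1 ∧ d.1.2.1 = a.1.2.1)))
instance (a b c d : Vx L K q) : Decidable (U a b c d) := by unfold U; infer_instance

/-- two vertices of one part: the shape of the edge -/
theorem S_pair {a b c : Vx L K q} (h : S a b c) (h1 : b.1.1 = a.1.1) (h2 : c.1.1 ≠ a.1.1) : Q a b c := by
  rcases h with h | h | h | h
  · exact absurd h1.symm h.1
  · exact h
  · exact absurd ((Q_part h).symm.trans h1) h2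
  · exact absurd (Q_part h) h2

/-- three vertices of one part: exactly two in the same cell -/
theorem S_same (hL : 3 ≤ L) {a b c : Vx L K q} (h : S a b c) (h1 : b.1.1 = a.1.1) (h2 : c.1.1 = a.1.1) :
    (a.1 = b.1 ∧ c.1 ≠ a.1) ∨ (b.1 = c.1 ∧ a.1 ≠ b.1) ∨ (c.1 = a.1 ∧ b.1 ≠ c.1) := by
  rcases h with h | h | h | h
  · exact absurd h1.symm h.1
  · exact Or.inl (Q_same hL h h2)
  · exact Or.inr (Or.inl (Q_same hL h h1.symm))
  · exact Or.inr (Or.inr (Q_same hL h (h1.trans h2.symm)))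

/-- two vertices of one part and one of the next part -/
theorem S_next (hL : 3 ≤ L) {a b c : Vx L K q} (h : S a b c) (h1 : b.1.1 = a.1.1) (h2 : c.1.1 = a.1.1 + 1) :
    a.1 = b.1 ∧ c.1.2.1 = a.1.2.1 := by
  have h3 := S_pair h h1 (by rw [h2]; exact n1 hL _)
  rcases h3 with h | h | h | h
  · exact absurd h2 h.2.2
  · exact absurd (h2.symm.trans h.2.1) (n1 hL _)
  · exact ⟨h.1.2, h.2.2⟩
  · exact absurd h2 h.2.2.1

/-- two vertices of one part and one of the second next part -/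
theorem S_next2 (hL : 3 ≤ L) {a b c : Vx L K q} (h : S a b c) (h1 : b.1.1 = a.1.1) (h2 : c.1.1 = a.1.1 + 2) :
    a.1 ≠ b.1 := by
  have h3 := S_pair h h1 (by rw [h2]; exact n2 hL _)
  rcases h3 with h | h | h | h
  · exact h.1.2
  · exact absurd (h2.symm.trans h.2.1) (n2 hL _)
  · exact absurd (h.2.1.symm.trans h2) (n12 hL _)
  · exact absurd h2 h.2.2.2

theorem four_same {α : Type} {a b c d : α}
    (g1 : (a = b ∧ c ≠ a) ∨ (b = c ∧ a ≠ b) ∨ (c = a ∧ b ≠ c))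
    (g2 : (a = b ∧ d ≠ a) ∨ (b = d ∧ a ≠ b) ∨ (d = a ∧ b ≠ d))
    (g3 : (a = c ∧ d ≠ a) ∨ (c = d ∧ a ≠ c) ∨ (d = a ∧ c ≠ d))
    (g4 : (b = c ∧ d ≠ b) ∨ (c = d ∧ b ≠ c) ∨ (d = b ∧ c ≠ d)) :
    (a = b ∧ c = d) ∨ (a = c ∧ b = d) ∨ (a = d ∧ b = c) := by
  grind

/-- the cyclic counting argument -/
theorem cyc (p : ZMod L → ℕ) (F1 : ∀ i, p i ≤ 3) (F2 : ∀ i, p i = 3 → p (i + 1) = 0 ∧ p (i + 2) = 0)
    (F3 : ∀ i, p i = 2 → p (i + 1) = 0 ∨ (p (i + 1) ≤ 1 ∧ p (i + 2) = 0)) : ∑ i, p i ≤ L := by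
  set D : ZMod L → ℕ := fun i => if p i = 3 then 2 else if p i = 2 then 1 else
    if p i = 1 then (if p (i - 1) = 2 then 1 else 0) else (if p (i - 1) = 3 then 1 else 0) with hD
  have key : ∀ i, p i + D (i - 1) ≤ 1 + D i := by
    intro i
    have a1 := F1 i
    have a2 := F1 (i - 1)
    have a3 := F2 (i - 1)
    have a4 := F3 (i - 1)
    have a5 := F2 (i - 1 - 1)
    have a6 := F3 (i - 1 - 1)
    have e1 : i - 1 + 1 = i := by ring
    have e2 : i - 1 - 1 + 1 = i - 1 := by ring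
    have e3 : i - 1 - 1 + 2 = i := by ring
    rw [e1] at a3 a4
    rw [e2, e3] at a5 a6
    simp only [hD]
    split_ifs <;> omega
  have h1 : ∑ i, (p i + D (i - 1)) ≤ ∑ i, (1 + D i) := Finset.sum_le_sum fun i _ => key i
  rw [Finset.sum_add_distrib, Finset.sum_add_distrib, Finset.sum_const, card_univ, ZMod.card, smul_eq_mul,
    mul_one] at h1
  have h2 : ∑ i : ZMod L, D (i - 1) = ∑ i : ZMod L, D i :=
    Equiv.sum_comp (Equiv.subRight (1 : ZMod L)) D
  omega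

theorem clique_U (hL : 3 ≤ L) (W : Finset (Vx L K q)) (hW : L + 1 ≤ W.card)
    (h : ∀ T ⊆ W, T.card = 3 → T ∈ HG L K q) :
    ∃ a ∈ W, ∃ b ∈ W, ∃ c ∈ W, ∃ d ∈ W, (a ≠ b ∧ a ≠ c ∧ a ≠ d ∧ b ≠ c ∧ b ≠ d ∧ c ≠ d) ∧ U a b c d := by
  by_contra hno
  push Not at hno
  have hS : ∀ a ∈ W, ∀ b ∈ W, ∀ c ∈ W, a ≠ b → a ≠ c → b ≠ c → S a b c := by
    intro a ha b hb c hc hab hac hbc
    rw [← mem_HG hL]
    refine h _ ?_ (Finset.card_eq_three.mpr ⟨a, b, c, hab, hac, hbc, rfl⟩)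
    intro x hx
    simp only [mem_insert, mem_singleton] at hx
    rcases hx with rfl | rfl | rfl <;> assumption
  set p : ZMod L → ℕ := fun i => (W.filter fun v => v.1.1 = i).card with hp
  have hsum : W.card = ∑ i, p i := Finset.card_eq_sum_card_fiberwise (fun x _ => mem_univ _)
  have hmem : ∀ i, ∀ v, v ∈ W.filter (fun v => v.1.1 = i) ↔ v ∈ W ∧ v.1.1 = i := fun i v => mem_filter
  have F1 : ∀ i, p i ≤ 3 := by
    intro i
    by_contra hi
    push Not at hi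
    obtain ⟨X, hX, hX4⟩ := Finset.exists_subset_card_eq (show 4 ≤ (W.filter fun v => v.1.1 = i).card from hi)
    obtain ⟨a, b, c, d, hab, hac, had, hbc, hbd, hcd, rfl⟩ := Finset.card_eq_four.mp hX4
    have ha := (hmem i a).mp (hX (by simp))
    have hb := (hmem i b).mp (hX (by simp))
    have hc := (hmem i c).mp (hX (by simp))
    have hd := (hmem i d).mp (hX (by simp))
    have g1 := S_same hL (hS a ha.1 b hb.1 c hc.1 hab hac hbc) (hb.2.trans ha.2.symm) (hc.2.trans ha.2.symm)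
    have g2 := S_same hL (hS a ha.1 b hb.1 d hd.1 hab had hbd) (hb.2.trans ha.2.symm) (hd.2.trans ha.2.symm)
    have g3 := S_same hL (hS a ha.1 c hc.1 d hd.1 hac had hcd) (hc.2.trans ha.2.symm) (hd.2.trans ha.2.symm)
    have g4 := S_same hL (hS b hb.1 c hc.1 d hd.1 hbc hbd hcd) (hc.2.trans hb.2.symm) (hd.2.trans hb.2.symm)
    rcases four_same g1 g2 g3 g4 with g | g | g
    · exact hno a ha.1 b hb.1 c hc.1 d hd.1 ⟨hab, hac, had, hbc, hbd, hcd⟩
        ⟨g.1, Or.inl ⟨g.2, hc.2.trans ha.2.symm⟩⟩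
    · exact hno a ha.1 c hc.1 b hb.1 d hd.1 ⟨hac, hab, had, hbc.symm, hcd, hbd⟩
        ⟨g.1, Or.inl ⟨g.2, hb.2.trans ha.2.symm⟩⟩
    · exact hno a ha.1 d hd.1 b hb.1 c hc.1 ⟨had, hab, hac, hbd.symm, hcd.symm, hbc⟩
        ⟨g.1, Or.inl ⟨g.2, hb.2.trans ha.2.symm⟩⟩
  have F2 : ∀ i, p i = 3 → p (i + 1) = 0 ∧ p (i + 2) = 0 := by
    intro i hi
    obtain ⟨a, b, c, hab, hac, hbc, hX⟩ := Finset.card_eq_three.mp hi
    have ha := (hmem i a).mp (by rw [hX]; simp)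
    have hb := (hmem i b).mp (by rw [hX]; simp)
    have hc := (hmem i c).mp (by rw [hX]; simp)
    have g1 := S_same hL (hS a ha.1 b hb.1 c hc.1 hab hac hbc) (hb.2.trans ha.2.symm) (hc.2.trans ha.2.symm)
    constructor
    · by_contra hne
      obtain ⟨d, hd⟩ := Finset.card_pos.mp (Nat.pos_of_ne_zero hne)
      rw [hmem] at hd
      have hd1 : d.1.1 ≠ i := by rw [hd.2]; exact n1 hL i
      have g2 := S_next hL (hS a ha.1 b hb.1 d hd.1 hab (fun h => hd1 (by rw [← h, ha.2]))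
        (fun h => hd1 (by rw [← h, hb.2]))) (hb.2.trans ha.2.symm) (by rw [hd.2, ha.2])
      have g3 := S_next hL (hS a ha.1 c hc.1 d hd.1 hac (fun h => hd1 (by rw [← h, ha.2]))
        (fun h => hd1 (by rw [← h, hc.2]))) (hc.2.trans ha.2.symm) (by rw [hd.2, ha.2])
      rcases g1 with g | g | g
      · exact g.2 g3.1.symm
      · exact g.2 g2.1
      · exact g.2 (g2.1.symm.trans g3.1)
    · by_contra hne
      obtain ⟨d, hd⟩ := Finset.card_pos.mp (Nat.pos_of_ne_zero hne)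
      rw [hmem] at hd
      have hd1 : d.1.1 ≠ i := by rw [hd.2]; exact n2 hL i
      have g2 := S_next2 hL (hS a ha.1 b hb.1 d hd.1 hab (fun h => hd1 (by rw [← h, ha.2]))
        (fun h => hd1 (by rw [← h, hb.2]))) (hb.2.trans ha.2.symm) (by rw [hd.2, ha.2])
      have g3 := S_next2 hL (hS a ha.1 c hc.1 d hd.1 hac (fun h => hd1 (by rw [← h, ha.2]))
        (fun h => hd1 (by rw [← h, hc.2]))) (hc.2.trans ha.2.symm) (by rw [hd.2, ha.2])
      have g4 := S_next2 hL (hS b hb.1 c hc.1 d hd.1 hbc (fun h => hd1 (by rw [← h, hb.2]))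
        (fun h => hd1 (by rw [← h, hc.2]))) (hc.2.trans hb.2.symm) (by rw [hd.2, hb.2])
      rcases g1 with g | g | g
      · exact g2 g.1
      · exact g4 g.1
      · exact g3 g.1.symm
  have F3 : ∀ i, p i = 2 → p (i + 1) = 0 ∨ (p (i + 1) ≤ 1 ∧ p (i + 2) = 0) := by
    intro i hi
    obtain ⟨a, b, hab, hX⟩ := Finset.card_eq_two.mp hi
    have ha := (hmem i a).mp (by rw [hX]; simp)
    have hb := (hmem i b).mp (by rw [hX]; simp)
    by_cases h0 : p (i + 1) = 0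
    · exact Or.inl h0
    right
    have hne1 : ∀ d : Vx L K q, d.1.1 = i + 1 → a ≠ d ∧ b ≠ d := by
      intro d hd
      have hd1 : d.1.1 ≠ i := by rw [hd]; exact n1 hL i
      exact ⟨fun h => hd1 (by rw [← h, ha.2]), fun h => hd1 (by rw [← h, hb.2])⟩
    have hne2 : ∀ d : Vx L K q, d.1.1 = i + 2 → a ≠ d ∧ b ≠ d := by
      intro d hd
      have hd1 : d.1.1 ≠ i := by rw [hd]; exact n2 hL i
      exact ⟨fun h => hd1 (by rw [← h, ha.2]), fun h => hd1 (by rw [← h, hb.2])⟩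
    have hx : ∀ d ∈ W, d.1.1 = i + 1 → a.1 = b.1 ∧ d.1.2.1 = a.1.2.1 := by
      intro d hdW hd
      exact S_next hL (hS a ha.1 b hb.1 d hdW hab (hne1 d hd).1 (hne1 d hd).2) (hb.2.trans ha.2.symm)
        (by rw [hd, ha.2])
    obtain ⟨c, hc⟩ := Finset.card_pos.mp (Nat.pos_of_ne_zero h0)
    rw [hmem] at hc
    have hcell := (hx c hc.1 hc.2).1
    constructor
    · by_contra h2
      push Not at h2
      obtain ⟨c, d, hcm, hdm, hcd⟩ := Finset.one_lt_card_iff.mp h2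
      rw [hmem] at hcm hdm
      have g1 := hx c hcm.1 hcm.2
      have g2 := hx d hdm.1 hdm.2
      exact hno a ha.1 b hb.1 c hcm.1 d hdm.1
        ⟨hab, (hne1 c hcm.2).1, (hne1 d hdm.2).1, (hne1 c hcm.2).2, (hne1 d hdm.2).2, hcd⟩
        ⟨hcell, Or.inr ⟨⟨by rw [hcm.2, ha.2], g1.2⟩, ⟨by rw [hdm.2, ha.2], g2.2⟩⟩⟩
    · by_contra hne
      obtain ⟨d, hd⟩ := Finset.card_pos.mp (Nat.pos_of_ne_zero hne)
      rw [hmem] at hd
      exact S_next2 hL (hS a ha.1 b hb.1 d hd.1 hab (hne2 d hd.2).1 (hne2 d hd.2).2) (hb.2.trans ha.2.symm)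
        (by rw [hd.2, ha.2]) hcell
  have := cyc p F1 F2 F3
  omega

end

end Pool.Agent.T2h36.CK
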