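import Pool.Agent.T2h36.CK.Graph

/-! Counting edges. -/

set_option autoImplicit false
set_option linter.unusedSectionVars false
open Finset

namespace Pool.Agent.T2h36.CK

section
variable {L K q : ℕ} [NeZero L] [NeZero K] [NeZero q]

theorem card_Vx : Fintype.card (Vx L K q) = L * (K * K) * q := by
  simp [Vx, ZMod.card]

theorem cA (x : ZMod L × ZMod K × ZMod K) : (univ.filter fun b : Vx L K q => b.1 = x).card = q := by
  have : (univ.filter fun b : Vx L K q => b.1 = x) = {x} ×ˢ univ := by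
    ext b; simp only [mem_filter, mem_univ, true_and, mem_product, mem_singleton, and_true]
  rw [this, card_product, card_singleton, card_univ, ZMod.card, one_mul]

theorem cP (A : Finset (ZMod L)) : (univ.filter fun b : Vx L K q => b.1.1 ∈ A).card = A.card * (K * K * q) := by
  have : (univ.filter fun b : Vx L K q => b.1.1 ∈ A) = (A ×ˢ univ) ×ˢ univ := by
    ext b; simp only [mem_filter, mem_univ, true_and, mem_product, and_true]
  rw [this, card_product, card_product, card_univ, card_univ, ZMod.card,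
    Fintype.card_prod, ZMod.card]
  ring

theorem c1 (i : ZMod L) : (univ.filter fun b : Vx L K q => b.1.1 = i).card = K * K * q := by
  have := cP (L := L) (K := K) (q := q) {i}
  simpa using this

theorem c2 (i : ZMod L) (x : ZMod K) :
    (univ.filter fun b : Vx L K q => b.1.1 = i ∧ b.1.2.1 = x).card = K * q := by
  have : (univ.filter fun b : Vx L K q => b.1.1 = i ∧ b.1.2.1 = x) = ({i} ×ˢ ({x} ×ˢ univ)) ×ˢ univ := by
    ext b; simp only [mem_filter, mem_univ, true_and, mem_product, mem_singleton, and_true]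
  rw [this, card_product, card_product, card_product, card_singleton, card_singleton, card_univ, card_univ,
    ZMod.card, ZMod.card, one_mul, one_mul]

/-- the vertices outside one part -/
theorem cnot1 (i : ZMod L) :
    ((univ.filter fun b : Vx L K q => i ≠ b.1.1).card : ℝ) = ((L : ℝ) - 1) * (K * K * q) := by
  have h1 : (univ.filter fun b : Vx L K q => i ≠ b.1.1) = univ.filter fun b : Vx L K q => b.1.1 ∈ ({i} : Finset (ZMod L))ᶜ := by
    ext b
    simp only [mem_filter, mem_univ, true_and, mem_compl, mem_singleton]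
    exact ⟨fun h h' => h h'.symm, fun h h' => h h'.symm⟩
  rw [h1, cP, card_compl, card_singleton, ZMod.card]
  have : 1 ≤ L := Nat.one_le_iff_ne_zero.mpr (NeZero.ne L)
  push_cast [Nat.cast_sub this]
  ring

/-- the vertices outside two parts -/
theorem cnot2 (hL : 3 ≤ L) (i j : ZMod L) (hij : i ≠ j) :
    ((univ.filter fun b : Vx L K q => b.1.1 ≠ i ∧ b.1.1 ≠ j).card : ℝ) = ((L : ℝ) - 2) * (K * K * q) := by
  have h1 : (univ.filter fun b : Vx L K q => b.1.1 ≠ i ∧ b.1.1 ≠ j) =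
      univ.filter fun b : Vx L K q => b.1.1 ∈ ({i, j} : Finset (ZMod L))ᶜ := by
    ext b
    simp only [mem_filter, mem_univ, true_and, mem_compl, mem_insert, mem_singleton, not_or, ne_eq]
  rw [h1, cP, card_compl, card_pair hij, ZMod.card]
  push_cast [Nat.cast_sub (show 2 ≤ L by omega)]
  ring

/-- the vertices outside three parts -/
theorem cnot3 (hL : 3 ≤ L) (i : ZMod L) :
    ((univ.filter fun b : Vx L K q => b.1.1 ≠ i ∧ b.1.1 ≠ i + 1 ∧ b.1.1 ≠ i + 2).card : ℝ) =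
      ((L : ℝ) - 3) * (K * K * q) := by
  have h1 : (univ.filter fun b : Vx L K q => b.1.1 ≠ i ∧ b.1.1 ≠ i + 1 ∧ b.1.1 ≠ i + 2) =
      univ.filter fun b : Vx L K q => b.1.1 ∈ ({i, i + 1, i + 2} : Finset (ZMod L))ᶜ := by
    ext b
    simp only [mem_filter, mem_univ, true_and, mem_compl, mem_insert, mem_singleton, not_or, ne_eq]
  have h2 : ({i, i + 1, i + 2} : Finset (ZMod L)).card = 3 :=
    Finset.card_eq_three.mpr ⟨i, i + 1, i + 2, (n1 hL i).symm, (n2 hL i).symm, n12 hL i, rfl⟩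
  rw [h1, cP, card_compl, h2, ZMod.card]
  push_cast [Nat.cast_sub hL]
  ring

theorem cN (a : Vx L K q) : (univ.filter fun b : Vx L K q => a ≠ b ∧ a.1 = b.1).card + 1 = q := by
  have h := cA (L := L) (K := K) (q := q) a.1
  have h2 : (univ.filter fun b : Vx L K q => b.1 = a.1) =
      insert a (univ.filter fun b : Vx L K q => a ≠ b ∧ a.1 = b.1) := by
    ext b
    simp only [mem_filter, mem_univ, true_and, mem_insert]
    constructor
    · intro hb
      by_cases hab : a = b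
      · exact Or.inl hab.symm
      · exact Or.inr ⟨hab, hb.symm⟩
    · rintro (rfl | ⟨_, hb⟩)
      · rfl
      · exact hb.symm
  rw [h2, card_insert_of_notMem (by simp)] at h
  exact h

theorem cM (a : Vx L K q) :
    (univ.filter fun b : Vx L K q => a.1.1 = b.1.1 ∧ a.1 ≠ b.1).card + q = K * K * q := by
  have h := c1 (L := L) (K := K) (q := q) a.1.1
  rw [← Finset.card_filter_add_card_filter_not (s := univ.filter fun b : Vx L K q => b.1.1 = a.1.1)
    (p := fun b => b.1 = a.1)] at h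
  rw [filter_filter, filter_filter] at h
  have h1 : (univ.filter fun b : Vx L K q => b.1.1 = a.1.1 ∧ b.1 = a.1) = univ.filter fun b : Vx L K q => b.1 = a.1 := by
    ext b
    simp only [mem_filter, mem_univ, true_and]
    exact ⟨fun h => h.2, fun h => ⟨by rw [h], h⟩⟩
  have h2 : (univ.filter fun b : Vx L K q => b.1.1 = a.1.1 ∧ ¬ b.1 = a.1) =
      univ.filter fun b : Vx L K q => a.1.1 = b.1.1 ∧ a.1 ≠ b.1 := by
    ext b
    simp only [mem_filter, mem_univ, true_and, ne_eq]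
    exact ⟨fun h => ⟨h.1.symm, fun h' => h.2 h'.symm⟩, fun h => ⟨h.1.symm, fun h' => h.2 h'.symm⟩⟩
  rw [h1, h2, cA] at h
  omega

theorem cM' (a : Vx L K q) :
    (univ.filter fun c : Vx L K q => c.1.1 = a.1.1 ∧ c.1 ≠ a.1).card + q = K * K * q := by
  rw [← cM a]
  congr 2
  ext b
  simp only [mem_filter, mem_univ, true_and, ne_eq]
  exact ⟨fun h => ⟨h.1.symm, fun h' => h.2 h'.symm⟩, fun h => ⟨h.1.symm, fun h' => h.2 h'.symm⟩⟩

/-- number of pairs with independent conditions -/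
theorem sum_and (A B : Vx L K q → Prop) [DecidablePred A] [DecidablePred B] :
    (∑ b : Vx L K q, ∑ c : Vx L K q, if A b ∧ B c then (1 : ℝ) else 0) =
      ((univ.filter A).card : ℝ) * ((univ.filter B).card : ℝ) := by
  rw [← Finset.sum_boole, ← Finset.sum_boole, Finset.sum_mul_sum]
  refine Finset.sum_congr rfl fun b _ => Finset.sum_congr rfl fun c _ => ?_
  by_cases h1 : A b <;> by_cases h2 : B c <;> simp [h1, h2]

/-- number of triples with a property -/
noncomputable def cnt (F : Vx L K q → Vx L K q → Vx L K q → Prop) [∀ a b c, Decidable (F a b c)] : ℝ :=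
  ∑ a : Vx L K q, ∑ b : Vx L K q, ∑ c : Vx L K q, if F a b c then (1 : ℝ) else 0

theorem cnt_P (hL : 3 ≤ L) : cnt (fun a b c : Vx L K q => P a b c) =
    (L * (K * K) * q) * ((((L : ℝ) - 1) * (K * K * q)) * (((L : ℝ) - 2) * (K * K * q))) := by
  unfold cnt P
  have h : ∀ a : Vx L K q, (∑ b : Vx L K q, ∑ c : Vx L K q,
      if a.1.1 ≠ b.1.1 ∧ b.1.1 ≠ c.1.1 ∧ a.1.1 ≠ c.1.1 then (1 : ℝ) else 0) =
      (((L : ℝ) - 1) * (K * K * q)) * (((L : ℝ) - 2) * (K * K * q)) := by
    intro a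
    have h1 : ∀ b : Vx L K q, (∑ c : Vx L K q,
        if a.1.1 ≠ b.1.1 ∧ b.1.1 ≠ c.1.1 ∧ a.1.1 ≠ c.1.1 then (1 : ℝ) else 0) =
        if a.1.1 ≠ b.1.1 then ((L : ℝ) - 2) * (K * K * q) else 0 := by
      intro b
      by_cases hab : a.1.1 ≠ b.1.1
      · rw [if_pos hab, ← cnot2 hL a.1.1 b.1.1 hab, ← Finset.sum_boole]
        refine Finset.sum_congr rfl fun c _ => ?_
        congr 1
        exact propext ⟨fun h => ⟨fun h' => h.2.2 h'.symm, fun h' => h.2.1 h'.symm⟩,
          fun h => ⟨hab, fun h' => h.2 h'.symm, fun h' => h.1 h'.symm⟩⟩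
      · rw [if_neg hab]
        refine Finset.sum_eq_zero fun c _ => ?_
        rw [if_neg (fun h => hab h.1)]
    rw [Finset.sum_congr rfl fun b _ => h1 b, ← Finset.sum_filter, Finset.sum_const, nsmul_eq_mul, cnot1]
  rw [Finset.sum_congr rfl (fun a _ => h a), Finset.sum_const, nsmul_eq_mul, card_univ, card_Vx]
  push_cast
  ring

theorem cnt_Q1 (hL : 3 ≤ L) : cnt (fun a b c : Vx L K q => Q1 a b c) =
    (L * (K * K) * q) * ((K * K * q - q) * (((L : ℝ) - 2) * (K * K * q))) := by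
  unfold cnt Q1
  have h : ∀ a : Vx L K q, (∑ b : Vx L K q, ∑ c : Vx L K q,
      if (a.1.1 = b.1.1 ∧ a.1 ≠ b.1) ∧ (c.1.1 ≠ a.1.1 ∧ c.1.1 ≠ a.1.1 + 1) then (1 : ℝ) else 0) =
      (K * K * q - q) * (((L : ℝ) - 2) * (K * K * q)) := by
    intro a
    rw [sum_and (fun b : Vx L K q => a.1.1 = b.1.1 ∧ a.1 ≠ b.1)
      (fun c : Vx L K q => c.1.1 ≠ a.1.1 ∧ c.1.1 ≠ a.1.1 + 1), cnot2 hL _ _ (n1 hL a.1.1).symm]
    have h2 : ((univ.filter fun b : Vx L K q => a.1.1 = b.1.1 ∧ a.1 ≠ b.1).card : ℝ) + q = K * K * q := by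
      exact_mod_cast cM a
    rw [eq_sub_of_add_eq h2]
  rw [Finset.sum_congr rfl (fun a _ => h a), Finset.sum_const, nsmul_eq_mul, card_univ, card_Vx]
  push_cast
  ring

theorem cnt_Q2 : cnt (fun a b c : Vx L K q => Q2 a b c) =
    (L * (K * K) * q) * ((q - 1) * (K * K * q - q)) := by
  unfold cnt Q2
  have h : ∀ a : Vx L K q, (∑ b : Vx L K q, ∑ c : Vx L K q,
      if (a ≠ b ∧ a.1 = b.1) ∧ (c.1.1 = a.1.1 ∧ c.1 ≠ a.1) then (1 : ℝ) else 0) =
      (q - 1) * (K * K * q - q) := by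
    intro a
    rw [sum_and (fun b : Vx L K q => a ≠ b ∧ a.1 = b.1) (fun c : Vx L K q => c.1.1 = a.1.1 ∧ c.1 ≠ a.1)]
    have h2 : ((univ.filter fun c : Vx L K q => c.1.1 = a.1.1 ∧ c.1 ≠ a.1).card : ℝ) + q = K * K * q := by
      exact_mod_cast cM' a
    have h3 : ((univ.filter fun b : Vx L K q => a ≠ b ∧ a.1 = b.1).card : ℝ) + 1 = q := by
      exact_mod_cast cN a
    rw [eq_sub_of_add_eq h2, eq_sub_of_add_eq h3]
  rw [Finset.sum_congr rfl (fun a _ => h a), Finset.sum_const, nsmul_eq_mul, card_univ, card_Vx]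
  push_cast
  ring

theorem cnt_Q3 : cnt (fun a b c : Vx L K q => Q3 a b c) =
    (L * (K * K) * q) * ((q - 1) * (K * q)) := by
  unfold cnt Q3
  have h : ∀ a : Vx L K q, (∑ b : Vx L K q, ∑ c : Vx L K q,
      if (a ≠ b ∧ a.1 = b.1) ∧ (c.1.1 = a.1.1 + 1 ∧ c.1.2.1 = a.1.2.1) then (1 : ℝ) else 0) =
      (q - 1) * (K * q) := by
    intro a
    rw [sum_and (fun b : Vx L K q => a ≠ b ∧ a.1 = b.1)
      (fun c : Vx L K q => c.1.1 = a.1.1 + 1 ∧ c.1.2.1 = a.1.2.1), c2]
    have h3 : ((univ.filter fun b : Vx L K q => a ≠ b ∧ a.1 = b.1).card : ℝ) + 1 = q := by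
      exact_mod_cast cN a
    rw [eq_sub_of_add_eq h3]
    push_cast
    ring
  rw [Finset.sum_congr rfl (fun a _ => h a), Finset.sum_const, nsmul_eq_mul, card_univ, card_Vx]
  push_cast
  ring

theorem cnt_Q4 (hL : 3 ≤ L) : cnt (fun a b c : Vx L K q => Q4 a b c) =
    (L * (K * K) * q) * ((q - 1) * (((L : ℝ) - 3) * (K * K * q))) := by
  unfold cnt Q4
  have h : ∀ a : Vx L K q, (∑ b : Vx L K q, ∑ c : Vx L K q,
      if (a ≠ b ∧ a.1 = b.1) ∧ (c.1.1 ≠ a.1.1 ∧ c.1.1 ≠ a.1.1 + 1 ∧ c.1.1 ≠ a.1.1 + 2) then (1 : ℝ) else 0) =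
      (q - 1) * (((L : ℝ) - 3) * (K * K * q)) := by
    intro a
    rw [sum_and (fun b : Vx L K q => a ≠ b ∧ a.1 = b.1)
      (fun c : Vx L K q => c.1.1 ≠ a.1.1 ∧ c.1.1 ≠ a.1.1 + 1 ∧ c.1.1 ≠ a.1.1 + 2), cnot3 hL]
    have h3 : ((univ.filter fun b : Vx L K q => a ≠ b ∧ a.1 = b.1).card : ℝ) + 1 = q := by
      exact_mod_cast cN a
    rw [eq_sub_of_add_eq h3]
  rw [Finset.sum_congr rfl (fun a _ => h a), Finset.sum_const, nsmul_eq_mul, card_univ, card_Vx]
  push_cast
  ring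

/-- at most one of the conditions holds -/
theorem ind_Q (hL : 3 ≤ L) (a b c : Vx L K q) :
    (if Q1 a b c then (1 : ℝ) else 0) + (if Q2 a b c then (1 : ℝ) else 0) + (if Q3 a b c then (1 : ℝ) else 0) +
      (if Q4 a b c then (1 : ℝ) else 0) ≤ if Q a b c then (1 : ℝ) else 0 := by
  have h12 : Q1 a b c → ¬ Q2 a b c := fun h1 h2 => h1.1.2 h2.1.2
  have h13 : Q1 a b c → ¬ Q3 a b c := fun h1 h2 => h1.1.2 h2.1.2
  have h14 : Q1 a b c → ¬ Q4 a b c := fun h1 h2 => h1.1.2 h2.1.2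
  have h23 : Q2 a b c → ¬ Q3 a b c := fun h1 h2 => n1 hL a.1.1 (by rw [← h2.2.1, h1.2.1])
  have h24 : Q2 a b c → ¬ Q4 a b c := fun h1 h2 => h2.2.1 h1.2.1
  have h34 : Q3 a b c → ¬ Q4 a b c := fun h1 h2 => h2.2.2.1 h1.2.1
  unfold Q
  by_cases h1 : Q1 a b c
  · simp [h1, h12 h1, h13 h1, h14 h1]
  · by_cases h2 : Q2 a b c
    · simp [h1, h2, h23 h2, h24 h2]
    · by_cases h3 : Q3 a b c
      · simp [h1, h2, h3, h34 h3]
      · by_cases h4 : Q4 a b c <;> simp [h1, h2, h3, h4]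

theorem Q_part {a b c : Vx L K q} (h : Q a b c) : a.1.1 = b.1.1 := by
  rcases h with h | h | h | h
  · exact h.1.1
  · rw [h.1.2]
  · rw [h.1.2]
  · rw [h.1.2]

/-- the third vertex in the same part: then `Q2` -/
theorem Q_same (hL : 3 ≤ L) {a b c : Vx L K q} (h : Q a b c) (hc : c.1.1 = a.1.1) : a.1 = b.1 ∧ c.1 ≠ a.1 := by
  rcases h with h | h | h | h
  · exact absurd hc h.2.1
  · exact ⟨h.1.2, h.2.2⟩
  · exact absurd (h.2.1.symm.trans hc) (n1 hL a.1.1)
  · exact absurd hc h.2.1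

theorem QQ (hL : 3 ≤ L) {a b c : Vx L K q} (h : Q a b c) (h' : Q b c a) : False := by
  have e1 := Q_part h
  have e2 := Q_part h'
  have h1 := Q_same hL h (e1.trans e2).symm
  have h2 := Q_same hL h' e1
  exact h1.2 (by rw [← h2.1, ← h1.1])

theorem PQ {a b c : Vx L K q} (h : P a b c) (h' : Q a b c) : False := h.1 (Q_part h')

theorem ind_S (hL : 3 ≤ L) (a b c : Vx L K q) :
    (if P a b c then (1 : ℝ) else 0) +
      (if Q a b c then (1 : ℝ) else 0) + (if Q b c a then (1 : ℝ) else 0) + (if Q c a b then (1 : ℝ) else 0) ≤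
      if S a b c then (1 : ℝ) else 0 := by
  unfold S
  by_cases h1 : P a b c
  · have h3 : ¬ Q a b c := fun h => PQ h1 h
    have h4 : ¬ Q b c a := fun h => PQ (P_rot h1) h
    have h5 : ¬ Q c a b := fun h => PQ (P_rot (P_rot h1)) h
    simp [h1, h3, h4, h5]
  · by_cases h3 : Q a b c
    · have h4 : ¬ Q b c a := fun h => QQ hL h3 h
      have h5 : ¬ Q c a b := fun h => QQ hL h h3
      simp [h1, h3, h4, h5]
    · by_cases h4 : Q b c a
      · have h5 : ¬ Q c a b := fun h => QQ hL h4 h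
        simp [h1, h3, h4, h5]
      · by_cases h5 : Q c a b <;> simp [h1, h3, h4, h5]

theorem cnt_rot (F : Vx L K q → Vx L K q → Vx L K q → Prop) [∀ a b c, Decidable (F a b c)] :
    cnt (fun a b c => F b c a) = cnt F := by
  unfold cnt
  rw [Finset.sum_comm]
  refine Finset.sum_congr rfl fun a _ => ?_
  rw [Finset.sum_comm]

/-- the number of ordered edges -/
theorem cnt_S (hL : 3 ≤ L) : (L * (K * K) * q : ℝ) * (((L : ℝ) ^ 2 - 4) * (K * K * q) ^ 2 -
      3 * ((L : ℝ) - 2) * (K * K * q) + 3 * (K - 1) * q * (q - 1)) ≤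
    cnt (fun a b c : Vx L K q => S a b c) := by
  have h1 : cnt (fun a b c : Vx L K q => P a b c) +
      cnt (fun a b c : Vx L K q => Q a b c) + cnt (fun a b c : Vx L K q => Q b c a) +
      cnt (fun a b c : Vx L K q => Q c a b) ≤ cnt (fun a b c : Vx L K q => S a b c) := by
    unfold cnt
    simp only [← Finset.sum_add_distrib]
    exact Finset.sum_le_sum fun a _ => Finset.sum_le_sum fun b _ => Finset.sum_le_sum fun c _ => ind_S hL a b c
  have h2 : cnt (fun a b c : Vx L K q => Q1 a b c) + cnt (fun a b c : Vx L K q => Q2 a b c) +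
      cnt (fun a b c : Vx L K q => Q3 a b c) + cnt (fun a b c : Vx L K q => Q4 a b c) ≤
      cnt (fun a b c : Vx L K q => Q a b c) := by
    unfold cnt
    simp only [← Finset.sum_add_distrib]
    exact Finset.sum_le_sum fun a _ => Finset.sum_le_sum fun b _ => Finset.sum_le_sum fun c _ => ind_Q hL a b c
  rw [cnt_rot (fun a b c : Vx L K q => Q a b c),
    cnt_rot (fun a b c : Vx L K q => Q b c a), cnt_rot (fun a b c : Vx L K q => Q a b c)] at h1
  rw [cnt_Q1 hL, cnt_Q2, cnt_Q3, cnt_Q4 hL] at h2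
  rw [cnt_P hL] at h1
  refine le_trans ?_ h1
  refine le_trans (le_of_eq ?_) (add_le_add (add_le_add (add_le_add (le_refl _) h2) h2) h2)
  ring

end

end Pool.Agent.T2h36.CK
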