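import Pool.Agent.T2h36.BarDefs

/-!
# Definitions for Turán's problem for the complete 3-graph on `k` vertices
-/

set_option autoImplicit false
open Finset

namespace Pool.Agent.T2h36

/-- no `k` vertices span all their triples -/
def CliqueFree3 {V : Type} (k : ℕ) (H : Finset (Finset V)) : Prop :=
  ∀ S : Finset V, S.card = k → ∃ T ⊆ S, T.card = 3 ∧ T ∉ H

/-- the number of `k`-sets of vertices which span all their triples, over the number of `k`-sets -/
noncomputable def cliqueDens {V : Type} [Fintype V] [DecidableEq V] (k : ℕ) (H : Finset (Finset V)) : ℝ :=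
  ((univ.filter fun S : Finset V => S.card = k ∧ ∀ T ⊆ S, T.card = 3 → T ∈ H).card : ℝ) /
    (((Fintype.card V).choose k : ℕ) : ℝ)

/-- the sampled average of `φ` is asymptotically nonnegative over all vertex-transitive 3-graphs of
edge density at least `1 - 4 / (k - 1)²` in which at most the fraction `δ` of the `k`-sets of vertices
spans all triples -/
def AsympNonnegK (k : ℕ) (δ : ℝ) {N : ℕ} (φ : Finset (Finset (Fin N)) → ℝ) : Prop :=
  ∀ ε : ℝ, 0 < ε → ∃ n₀ : ℕ, ∀ (V : Type) [Fintype V] [DecidableEq V] (H : Finset (Finset V)),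
    n₀ ≤ Fintype.card V → Is3 H → VertexTransitive H → 1 - 4 / ((k : ℝ) - 1) ^ 2 ≤ edgeDens H →
      cliqueDens k H ≤ δ → -ε ≤ avg φ H

end Pool.Agent.T2h36
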