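import Pool.Agent.T2h36.CK.Clique
import Pool.Agent.T2h36.CK.Defs

/-! The edge density and the density of large cliques. -/

set_option autoImplicit false
set_option linter.unusedSectionVars false
open Finset

namespace Pool.Agent.T2h36.CK

section gen
variable {V : Type} [Fintype V] [DecidableEq V]

theorem sum_triple (f : V × V × V → ℝ) :
    ∑ t, f t = ∑ a, ∑ b, ∑ c, f (a, b, c) := by
  rw [Fintype.sum_prod_type]
  refine Finset.sum_congr rfl fun a _ => ?_
  rw [Fintype.sum_prod_type]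

theorem sum_quad (f : V × V × V × V → ℝ) :
    ∑ t, f t = ∑ a, ∑ b, ∑ c, ∑ d, f (a, b, c, d) := by
  rw [Fintype.sum_prod_type]
  refine Finset.sum_congr rfl fun a _ => ?_
  rw [Fintype.sum_prod_type]
  refine Finset.sum_congr rfl fun b _ => ?_
  rw [Fintype.sum_prod_type]

theorem cast_desc3 (n : ℕ) (hn : 3 ≤ n) : ((n.descFactorial 3 : ℕ) : ℝ) = n * (n - 1) * (n - 2) := by
  have : n.descFactorial 3 = (n - 2) * ((n - 1) * n) := by simp [Nat.descFactorial]
  rw [this]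
  push_cast [Nat.cast_sub (show 1 ≤ n by omega), Nat.cast_sub (show 2 ≤ n by omega)]
  ring

theorem cast_desc4 (n : ℕ) (hn : 4 ≤ n) :
    ((n.descFactorial 4 : ℕ) : ℝ) = n * (n - 1) * (n - 2) * (n - 3) := by
  have : n.descFactorial 4 = (n - 3) * ((n - 2) * ((n - 1) * n)) := by simp [Nat.descFactorial]
  rw [this]
  push_cast [Nat.cast_sub (show 1 ≤ n by omega), Nat.cast_sub (show 2 ≤ n by omega),
    Nat.cast_sub (show 3 ≤ n by omega)]
  ring

theorem sum_emb4 (F : V → V → V → V → Prop) [∀ a b c d, Decidable (F a b c d)] :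
    (∑ σ : Fin 4 ↪ V, if F (σ 0) (σ 1) (σ 2) (σ 3) then (1 : ℝ) else 0) ≤
      ∑ a : V, ∑ b : V, ∑ c : V, ∑ d : V, if F a b c d then (1 : ℝ) else 0 := by
  rw [Finset.sum_boole, ← sum_quad (fun t : V × V × V × V => if F t.1 t.2.1 t.2.2.1 t.2.2.2 then (1 : ℝ) else 0),
    Finset.sum_boole]
  refine Nat.cast_le.mpr ?_
  refine Finset.card_le_card_of_injOn (fun σ : Fin 4 ↪ V => (σ 0, σ 1, σ 2, σ 3)) ?_ ?_
  · intro σ hσ
    simpa using hσ
  · intro σ _ σ' _ h
    simp only [Prod.mk.injEq] at h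
    refine DFunLike.ext _ _ fun i => ?_
    fin_cases i
    · exact h.1
    · exact h.2.1
    · exact h.2.2.1
    · exact h.2.2.2

theorem cliqueDens_eq {k : ℕ} (H : Finset (Finset V)) (hV : k ≤ Fintype.card V) :
    cliqueDens k H = (∑ θ : Fin k ↪ V,
      if ∀ T : Finset (Fin k), T.card = 3 → T ∈ pull θ H then (1 : ℝ) else 0) / (Fintype.card (Fin k ↪ V) : ℝ) := by
  unfold cliqueDens
  rw [fam_eq (univ.filter fun S : Finset V => S.card = k ∧ ∀ T ⊆ S, T.card = 3 → T ∈ H)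
    (fun e he => (mem_filter.mp he).2.1) hV]
  congr 1
  refine Finset.sum_congr rfl fun θ _ => ?_
  have : (univ.map θ ∈ (univ.filter fun S : Finset V => S.card = k ∧ ∀ T ⊆ S, T.card = 3 → T ∈ H)) ↔
      ∀ T : Finset (Fin k), T.card = 3 → T ∈ pull θ H := by
    simp only [mem_filter, mem_univ, true_and, card_map, card_univ, Fintype.card_fin, mem_pull]
    constructor
    · intro h T hT
      exact h _ (Finset.map_subset_map.mpr (Finset.subset_univ _)) (by rw [card_map]; exact hT)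
    · intro h T hT h3
      obtain ⟨T', -, rfl⟩ := Finset.subset_map_iff.mp hT
      rw [card_map] at h3
      exact h T' h3
  rw [if_congr this rfl rfl]

end gen

section
variable {L K q : ℕ} [NeZero L] [NeZero K] [NeZero q]

theorem sum_psi3 (hL : 3 ≤ L) :
    cnt (fun a b c : Vx L K q => S a b c) ≤ ∑ σ : Fin 3 ↪ Vx L K q, psi3 (pull σ (HG L K q)) := by
  have h1 : ∑ σ : Fin 3 ↪ Vx L K q, psi3 (pull σ (HG L K q)) =
      ((univ.filter fun σ : Fin 3 ↪ Vx L K q => univ.map σ ∈ HG L K q).card : ℝ) := by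
    unfold psi3
    simp_rw [mem_pull]
    rw [Finset.sum_boole]
  have h2 : cnt (fun a b c : Vx L K q => S a b c) =
      ((univ.filter fun t : Vx L K q × Vx L K q × Vx L K q => S t.1 t.2.1 t.2.2).card : ℝ) := by
    unfold cnt
    rw [← Finset.sum_boole, sum_triple]
  rw [h1, h2]
  refine Nat.cast_le.mpr ?_
  refine Finset.card_le_card_of_surjOn (fun σ : Fin 3 ↪ Vx L K q => (σ 0, σ 1, σ 2)) ?_
  rintro ⟨a, b, c⟩ ht
  simp only [coe_filter, mem_univ, true_and, Set.mem_ofPred_eq] at ht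
  obtain ⟨n1, n2, n3⟩ := S_ne hL ht
  have hinj : Function.Injective ![a, b, c] := by
    intro i j hij
    fin_cases i <;> fin_cases j <;> simp_all
  refine ⟨⟨![a, b, c], hinj⟩, ?_, rfl⟩
  simp only [coe_filter, mem_univ, true_and, Set.mem_ofPred_eq]
  have : (univ : Finset (Fin 3)).map ⟨![a, b, c], hinj⟩ = {a, b, c} := by
    ext x
    simp only [mem_map, mem_univ, true_and, Function.Embedding.coeFn_mk, mem_insert, mem_singleton]
    constructor
    · rintro ⟨i, rfl⟩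
      fin_cases i <;> simp
    · rintro (rfl | rfl | rfl)
      · exact ⟨0, rfl⟩
      · exact ⟨1, rfl⟩
      · exact ⟨2, rfl⟩
  rw [this, mem_HG hL]
  exact ht

theorem card_ge (hL : 3 ≤ L) (hK : 2 ≤ K) (hq : 2 ≤ q) : 24 ≤ Fintype.card (Vx L K q) := by
  rw [card_Vx]
  calc 24 = 3 * (2 * 2) * 2 := rfl
    _ ≤ L * (K * K) * q := Nat.mul_le_mul (Nat.mul_le_mul hL (Nat.mul_le_mul hK hK)) hq

/-- the edge density -/
theorem edgeDens_HG (hL : 3 ≤ L) (hK : 2 ≤ K) (hq : 2 ≤ q) :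
    1 - 4 / (L : ℝ) ^ 2 + 3 * ((K : ℝ) - 1) / (2 * (L : ℝ) ^ 2 * (K : ℝ) ^ 4) ≤ edgeDens (HG L K q) := by
  have hLr : (3 : ℝ) ≤ L := by exact_mod_cast hL
  have hKr : (2 : ℝ) ≤ K := by exact_mod_cast hK
  have hqr : (2 : ℝ) ≤ q := by exact_mod_cast hq
  have hn24 := card_ge hL hK hq
  have hn : 3 ≤ Fintype.card (Vx L K q) := by omega
  have hnr : (24 : ℝ) ≤ (Fintype.card (Vx L K q) : ℝ) := by exact_mod_cast hn24
  rw [edgeDens_eq _ (HG_is3 hL) hn]
  unfold avg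
  rw [Fintype.card_embedding_eq, Fintype.card_fin, cast_desc3 _ hn]
  have h := (cnt_S (K := K) (q := q) hL).trans (sum_psi3 hL)
  set m : ℝ := K * K * q with hmdef
  have hm : (8 : ℝ) ≤ m := by
    rw [hmdef]
    nlinarith
  have hnm : (Fintype.card (Vx L K q) : ℝ) = L * m := by
    rw [card_Vx, hmdef]
    push_cast
    ring
  have e : ((L : ℝ) * ((K : ℝ) * K) * q) = L * m := by rw [hmdef]; ring
  rw [e] at h
  rw [hnm] at hnr ⊢
  have hpos : (0 : ℝ) < L * m * (L * m - 1) * (L * m - 2) := by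
    have : (0 : ℝ) < L * m - 1 := by linarith
    have : (0 : ℝ) < L * m - 2 := by linarith
    positivity
  rw [le_div_iff₀ hpos]
  refine le_trans ?_ h
  have hL0 : (0 : ℝ) < L := by linarith
  have hK0 : (0 : ℝ) < K := by linarith
  have hK1 : (0 : ℝ) ≤ (K : ℝ) - 1 := by linarith
  have h1 : (3 * ((K : ℝ) - 1) / (2 * (L : ℝ) ^ 2 * (K : ℝ) ^ 4)) * ((L * m - 1) * (L * m - 2)) ≤
      3 * (K - 1) * q * (q - 1) := by
    have h2 : (L * m - 1) * (L * m - 2) ≤ (L * m) ^ 2 := by nlinarith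
    have h3 : (3 * ((K : ℝ) - 1) / (2 * (L : ℝ) ^ 2 * (K : ℝ) ^ 4)) * ((L * m - 1) * (L * m - 2)) ≤
        (3 * ((K : ℝ) - 1) / (2 * (L : ℝ) ^ 2 * (K : ℝ) ^ 4)) * (L * m) ^ 2 := by
      refine mul_le_mul_of_nonneg_left h2 ?_
      positivity
    refine h3.trans ?_
    have h4 : (3 * ((K : ℝ) - 1) / (2 * (L : ℝ) ^ 2 * (K : ℝ) ^ 4)) * (L * m) ^ 2 = (3 / 2) * (K - 1) * q ^ 2 := by
      rw [hmdef]
      field_simp
    rw [h4]
    have h5 : (0 : ℝ) ≤ (K - 1) * q := by positivity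
    nlinarith
  have h6 : (1 - 4 / (L : ℝ) ^ 2) * ((L * m - 1) * (L * m - 2)) ≤
      ((L : ℝ) ^ 2 - 4) * m ^ 2 - 3 * ((L : ℝ) - 2) * m := by
    have e1 : (1 - 4 / (L : ℝ) ^ 2) * ((L * m - 1) * (L * m - 2)) =
        ((L : ℝ) ^ 2 - 4) * m ^ 2 - 3 * ((L : ℝ) ^ 2 - 4) * m / L + 2 * ((L : ℝ) ^ 2 - 4) / L ^ 2 := by
      field_simp
      ring
    rw [e1]
    have e2 : 2 * ((L : ℝ) ^ 2 - 4) / L ^ 2 ≤ 2 := by
      rw [div_le_iff₀ (by positivity)]
      nlinarith
    have e3 : 3 * ((L : ℝ) - 2) * m + 2 ≤ 3 * ((L : ℝ) ^ 2 - 4) * m / L := by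
      rw [le_div_iff₀ hL0]
      nlinarith
    linarith
  calc (1 - 4 / (L : ℝ) ^ 2 + 3 * ((K : ℝ) - 1) / (2 * (L : ℝ) ^ 2 * (K : ℝ) ^ 4)) * (L * m * (L * m - 1) * (L * m - 2))
      = L * m * ((1 - 4 / (L : ℝ) ^ 2) * ((L * m - 1) * (L * m - 2)) +
          (3 * ((K : ℝ) - 1) / (2 * (L : ℝ) ^ 2 * (K : ℝ) ^ 4)) * ((L * m - 1) * (L * m - 2))) := by ring
    _ ≤ L * m * ((((L : ℝ) ^ 2 - 4) * m ^ 2 - 3 * ((L : ℝ) - 2) * m) + 3 * (K - 1) * q * (q - 1)) :=
        mul_le_mul_of_nonneg_left (add_le_add h6 h1) (by positivity)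
    _ = L * m * (((L : ℝ) ^ 2 - 4) * m ^ 2 - 3 * ((L : ℝ) - 2) * m + 3 * (K - 1) * q * (q - 1)) := by ring

/-! the rare pattern -/

/-- the probability of the rare pattern -/
noncomputable def pU (L K q : ℕ) [NeZero L] [NeZero K] [NeZero q] : ℝ :=
  (∑ σ : Fin 4 ↪ Vx L K q, if U (σ 0) (σ 1) (σ 2) (σ 3) then (1 : ℝ) else 0) /
    (Fintype.card (Fin 4 ↪ Vx L K q) : ℝ)

theorem cnt_U : (∑ a : Vx L K q, ∑ b : Vx L K q, ∑ c : Vx L K q, ∑ d : Vx L K q,
    if U a b c d then (1 : ℝ) else 0) ≤ (L * (K * K) * q) * (q * (2 * (K * K * (q * q)))) := by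
  have h1 : ∀ a : Vx L K q, (∑ b : Vx L K q, ∑ c : Vx L K q, ∑ d : Vx L K q,
      if U a b c d then (1 : ℝ) else 0) ≤ q * (2 * (K * K * (q * q))) := by
    intro a
    have h2 : ∀ b : Vx L K q, (∑ c : Vx L K q, ∑ d : Vx L K q, if U a b c d then (1 : ℝ) else 0) ≤
        if b.1 = a.1 then 2 * (K * K * (q * q) : ℝ) else 0 := by
      intro b
      by_cases hab : b.1 = a.1
      · rw [if_pos hab]
        have h3 : ∀ c d : Vx L K q, (if U a b c d then (1 : ℝ) else 0) ≤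
            (if d.1 = c.1 ∧ c.1.1 = a.1.1 then (1 : ℝ) else 0) +
            (if (c.1.1 = a.1.1 + 1 ∧ c.1.2.1 = a.1.2.1) ∧ (d.1.1 = a.1.1 + 1 ∧ d.1.2.1 = a.1.2.1) then (1 : ℝ) else 0) := by
          intro c d
          by_cases hU : U a b c d
          · rw [if_pos hU]
            rcases hU.2 with h | h
            · rw [if_pos (⟨h.1.symm, h.2⟩ : d.1 = c.1 ∧ c.1.1 = a.1.1)]
              have : (0 : ℝ) ≤ (if (c.1.1 = a.1.1 + 1 ∧ c.1.2.1 = a.1.2.1) ∧ (d.1.1 = a.1.1 + 1 ∧ d.1.2.1 = a.1.2.1) then (1 : ℝ) else 0) := by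
                split_ifs <;> norm_num
              linarith
            · rw [if_pos h]
              have : (0 : ℝ) ≤ (if d.1 = c.1 ∧ c.1.1 = a.1.1 then (1 : ℝ) else 0) := by split_ifs <;> norm_num
              linarith
          · rw [if_neg hU]
            have : (0 : ℝ) ≤ (if (c.1.1 = a.1.1 + 1 ∧ c.1.2.1 = a.1.2.1) ∧ (d.1.1 = a.1.1 + 1 ∧ d.1.2.1 = a.1.2.1) then (1 : ℝ) else 0) := by
              split_ifs <;> norm_num
            have : (0 : ℝ) ≤ (if d.1 = c.1 ∧ c.1.1 = a.1.1 then (1 : ℝ) else 0) := by split_ifs <;> norm_num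
            linarith
        have h4 : (∑ c : Vx L K q, ∑ d : Vx L K q, if d.1 = c.1 ∧ c.1.1 = a.1.1 then (1 : ℝ) else 0) =
            K * K * (q * q) := by
          have h5 : ∀ c : Vx L K q, (∑ d : Vx L K q, if d.1 = c.1 ∧ c.1.1 = a.1.1 then (1 : ℝ) else 0) =
              if c.1.1 = a.1.1 then (q : ℝ) else 0 := by
            intro c
            by_cases hc : c.1.1 = a.1.1
            · rw [if_pos hc]
              have : ∀ d : Vx L K q, (if d.1 = c.1 ∧ c.1.1 = a.1.1 then (1 : ℝ) else 0) =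
                  if d.1 = c.1 then 1 else 0 := by
                intro d
                by_cases hd : d.1 = c.1 <;> simp [hd, hc]
              rw [Finset.sum_congr rfl fun d _ => this d, Finset.sum_boole, cA]
            · rw [if_neg hc]
              exact Finset.sum_eq_zero fun d _ => if_neg (fun h => hc h.2)
          rw [Finset.sum_congr rfl fun c _ => h5 c, ← Finset.sum_filter, Finset.sum_const, nsmul_eq_mul, c1]
          push_cast
          ring
        have h6 : (∑ c : Vx L K q, ∑ d : Vx L K q,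
            if (c.1.1 = a.1.1 + 1 ∧ c.1.2.1 = a.1.2.1) ∧ (d.1.1 = a.1.1 + 1 ∧ d.1.2.1 = a.1.2.1) then (1 : ℝ) else 0) =
            K * K * (q * q) := by
          rw [sum_and (fun c : Vx L K q => c.1.1 = a.1.1 + 1 ∧ c.1.2.1 = a.1.2.1)
            (fun d : Vx L K q => d.1.1 = a.1.1 + 1 ∧ d.1.2.1 = a.1.2.1), c2]
          push_cast
          ring
        refine (Finset.sum_le_sum fun c _ => Finset.sum_le_sum fun d _ => h3 c d).trans ?_
        simp only [Finset.sum_add_distrib]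
        rw [h4, h6]
        linarith
      · rw [if_neg hab]
        refine le_of_eq (Finset.sum_eq_zero fun c _ => Finset.sum_eq_zero fun d _ => if_neg fun h => hab h.1.symm)
    refine (Finset.sum_le_sum fun b _ => h2 b).trans ?_
    rw [← Finset.sum_filter, Finset.sum_const, nsmul_eq_mul, cA]
  refine (Finset.sum_le_sum fun a _ => h1 a).trans ?_
  rw [Finset.sum_const, nsmul_eq_mul, card_univ, card_Vx]
  push_cast
  exact le_refl _

theorem pU_le (hL : 3 ≤ L) (hK : 2 ≤ K) (hq : 2 ≤ q) : pU L K q ≤ 3 / ((L : ℝ) ^ 3 * (K : ℝ) ^ 4) := by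
  have hLr : (3 : ℝ) ≤ L := by exact_mod_cast hL
  have hKr : (2 : ℝ) ≤ K := by exact_mod_cast hK
  have hqr : (2 : ℝ) ≤ q := by exact_mod_cast hq
  have hn24 := card_ge hL hK hq
  have hn : 4 ≤ Fintype.card (Vx L K q) := by omega
  have hnr : (24 : ℝ) ≤ (Fintype.card (Vx L K q) : ℝ) := by exact_mod_cast hn24
  unfold pU
  rw [Fintype.card_embedding_eq, Fintype.card_fin, cast_desc4 _ hn]
  have h := (sum_emb4 (fun a b c d : Vx L K q => U a b c d)).trans cnt_U
  set n : ℝ := (Fintype.card (Vx L K q) : ℝ) with hndef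
  have hnm : n = L * (K * K) * q := by
    rw [hndef, card_Vx]
    push_cast
    ring
  have hpos : (0 : ℝ) < n * (n - 1) * (n - 2) * (n - 3) := by
    have : (0 : ℝ) < n - 1 := by linarith
    have : (0 : ℝ) < n - 2 := by linarith
    have : (0 : ℝ) < n - 3 := by linarith
    positivity
  rw [div_le_iff₀ hpos]
  refine h.trans ?_
  rw [← hnm]
  have h1 : (2 / 3) * n ^ 3 ≤ (n - 1) * (n - 2) * (n - 3) := by nlinarith [mul_nonneg (by linarith : (0 : ℝ) ≤ n) (by linarith : (0 : ℝ) ≤ n - 24), mul_nonneg (mul_nonneg (by linarith : (0 : ℝ) ≤ n) (by linarith : (0 : ℝ) ≤ n)) (by linarith : (0 : ℝ) ≤ n - 24)]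
  have hL0 : (0 : ℝ) < L := by linarith
  have hK0 : (0 : ℝ) < K := by linarith
  have hn0 : (0 : ℝ) < n := by linarith
  calc n * ((q : ℝ) * (2 * (K * K * (q * q)))) = (3 / ((L : ℝ) ^ 3 * (K : ℝ) ^ 4)) * (n * ((2 / 3) * n ^ 3)) := by
        rw [hnm]
        field_simp
    _ ≤ (3 / ((L : ℝ) ^ 3 * (K : ℝ) ^ 4)) * (n * ((n - 1) * (n - 2) * (n - 3))) :=
        mul_le_mul_of_nonneg_left (mul_le_mul_of_nonneg_left h1 hn0.le) (by positivity)
    _ = 3 / ((L : ℝ) ^ 3 * (K : ℝ) ^ 4) * (n * (n - 1) * (n - 2) * (n - 3)) := by ring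

open Classical in
/-- the samples which contain a large clique -/
theorem avg_notfree (hL : 3 ≤ L) {N : ℕ} (hN : N ≤ Fintype.card (Vx L K q)) :
    avg (fun G : Finset (Finset (Fin N)) => if CliqueFree3 (L + 1) G then (0 : ℝ) else 1) (HG L K q) ≤
      (N : ℝ) ^ 4 * pU L K q := by
  have h1 : ∀ θ : Fin N ↪ Vx L K q,
      (if CliqueFree3 (L + 1) (pull θ (HG L K q)) then (0 : ℝ) else 1) ≤
      ∑ τ : Fin 4 ↪ Fin N, if U ((τ.trans θ) 0) ((τ.trans θ) 1) ((τ.trans θ) 2) ((τ.trans θ) 3) then (1 : ℝ) else 0 := by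
    intro θ
    have hnn : ∀ τ : Fin 4 ↪ Fin N, (0 : ℝ) ≤
        if U ((τ.trans θ) 0) ((τ.trans θ) 1) ((τ.trans θ) 2) ((τ.trans θ) 3) then (1 : ℝ) else 0 := by
      intro τ
      split_ifs <;> norm_num
    split_ifs with hf
    · exact Finset.sum_nonneg fun τ _ => hnn τ
    · unfold CliqueFree3 at hf
      push Not at hf
      obtain ⟨W, hW, hT⟩ := hf
      obtain ⟨a, ha, b, hb, c, hc, d, hd, ⟨hab, hac, had, hbc, hbd, hcd⟩, hU⟩ :=
        clique_U hL (W.map θ) (by rw [card_map, hW]) (by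
          intro T hTW hT3
          obtain ⟨T', hT'W, rfl⟩ := Finset.subset_map_iff.mp hTW
          rw [card_map] at hT3
          exact (mem_pull θ (HG L K q) T').mp (hT T' hT'W hT3))
      obtain ⟨a, ha, rfl⟩ := Finset.mem_map.mp ha
      obtain ⟨b, hb, rfl⟩ := Finset.mem_map.mp hb
      obtain ⟨c, hc, rfl⟩ := Finset.mem_map.mp hc
      obtain ⟨d, hd, rfl⟩ := Finset.mem_map.mp hd
      have hinj : Function.Injective ![a, b, c, d] := by
        intro i j hij
        have e1 : a ≠ b := fun h => hab (by rw [h])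
        have e2 : a ≠ c := fun h => hac (by rw [h])
        have e3 : a ≠ d := fun h => had (by rw [h])
        have e4 : b ≠ c := fun h => hbc (by rw [h])
        have e5 : b ≠ d := fun h => hbd (by rw [h])
        have e6 : c ≠ d := fun h => hcd (by rw [h])
        fin_cases i <;> fin_cases j <;> simp_all [eq_comm]
      refine le_trans (le_of_eq ?_) (Finset.single_le_sum (f := fun τ : Fin 4 ↪ Fin N =>
        if U ((τ.trans θ) 0) ((τ.trans θ) 1) ((τ.trans θ) 2) ((τ.trans θ) 3) then (1 : ℝ) else 0)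
        (fun τ _ => hnn τ) (mem_univ (⟨![a, b, c, d], hinj⟩ : Fin 4 ↪ Fin N)))
      have : U (((⟨![a, b, c, d], hinj⟩ : Fin 4 ↪ Fin N).trans θ) 0) (((⟨![a, b, c, d], hinj⟩ : Fin 4 ↪ Fin N).trans θ) 1)
          (((⟨![a, b, c, d], hinj⟩ : Fin 4 ↪ Fin N).trans θ) 2) (((⟨![a, b, c, d], hinj⟩ : Fin 4 ↪ Fin N).trans θ) 3) := hU
      simp only [this, if_true]
  have h2 : avg (fun G : Finset (Finset (Fin N)) => if CliqueFree3 (L + 1) G then (0 : ℝ) else 1) (HG L K q) ≤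
      (∑ θ : Fin N ↪ Vx L K q, ∑ τ : Fin 4 ↪ Fin N,
        if U ((τ.trans θ) 0) ((τ.trans θ) 1) ((τ.trans θ) 2) ((τ.trans θ) 3) then (1 : ℝ) else 0) /
      (Fintype.card (Fin N ↪ Vx L K q) : ℝ) := by
    unfold avg
    exact div_le_div_of_nonneg_right (Finset.sum_le_sum fun θ _ => h1 θ) (Nat.cast_nonneg _)
  refine h2.trans ?_
  rw [Finset.sum_comm, Finset.sum_div]
  have h3 : ∀ τ : Fin 4 ↪ Fin N, (∑ θ : Fin N ↪ Vx L K q,
      if U ((τ.trans θ) 0) ((τ.trans θ) 1) ((τ.trans θ) 2) ((τ.trans θ) 3) then (1 : ℝ) else 0) /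
      (Fintype.card (Fin N ↪ Vx L K q) : ℝ) = pU L K q := by
    intro τ
    exact tower τ (by simpa using hN) (fun σ : Fin 4 ↪ Vx L K q => if U (σ 0) (σ 1) (σ 2) (σ 3) then (1 : ℝ) else 0)
  rw [Finset.sum_congr rfl fun τ _ => h3 τ, Finset.sum_const, nsmul_eq_mul]
  refine mul_le_mul_of_nonneg_right ?_ ?_
  · rw [Finset.card_univ, Fintype.card_embedding_eq]
    simp only [Fintype.card_fin]
    exact_mod_cast Nat.descFactorial_le_pow N 4
  · unfold pU
    refine div_nonneg (Finset.sum_nonneg fun _ _ => ?_) (Nat.cast_nonneg _)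
    split_ifs <;> norm_num

theorem cliqueDens_le (hL : 3 ≤ L) (hn : L + 1 ≤ Fintype.card (Vx L K q)) :
    cliqueDens (L + 1) (HG L K q) ≤ ((L + 1 : ℕ) : ℝ) ^ 4 * pU L K q := by
  classical
  refine le_trans ?_ (avg_notfree hL hn)
  rw [cliqueDens_eq _ hn]
  unfold avg
  refine div_le_div_of_nonneg_right (Finset.sum_le_sum fun θ _ => ?_) (Nat.cast_nonneg _)
  beta_reduce
  by_cases h : ∀ T : Finset (Fin (L + 1)), T.card = 3 → T ∈ pull θ (HG L K q)
  · rw [if_pos h, if_neg]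
    intro hf
    obtain ⟨T, -, hT3, hTn⟩ := hf univ (by simp)
    exact hTn (h T hT3)
  · rw [if_neg h]
    split_ifs <;> norm_num

end

end Pool.Agent.T2h36.CK
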