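import Pool.Agent.T2h36.Flag

/-! Vertex-transitive 3-graphs on `L` parts with corners. -/

set_option autoImplicit false
set_option linter.unusedSectionVars false
open Finset

namespace Pool.Agent.T2h36.CK

/-- the vertices: part, slab, cell in the slab; and the position in the cell -/
abbrev Vx (L K q : ℕ) : Type := (ZMod L × ZMod K × ZMod K) × ZMod q

section
variable {L K q : ℕ} [NeZero L] [NeZero K] [NeZero q]

/-- three different parts -/
def P (a b c : Vx L K q) : Prop := a.1.1 ≠ b.1.1 ∧ b.1.1 ≠ c.1.1 ∧ a.1.1 ≠ c.1.1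

/-- two vertices of different cells of a part `i` and a vertex of a part other than `i`, `i + 1` -/
def Q1 (a b c : Vx L K q) : Prop := (a.1.1 = b.1.1 ∧ a.1 ≠ b.1) ∧ (c.1.1 ≠ a.1.1 ∧ c.1.1 ≠ a.1.1 + 1)
/-- two vertices of a cell and a vertex of another cell of the same part -/
def Q2 (a b c : Vx L K q) : Prop := (a ≠ b ∧ a.1 = b.1) ∧ (c.1.1 = a.1.1 ∧ c.1 ≠ a.1)
/-- two vertices of a cell of part `i` and a vertex of part `i + 1` in the same slab -/
def Q3 (a b c : Vx L K q) : Prop := (a ≠ b ∧ a.1 = b.1) ∧ (c.1.1 = a.1.1 + 1 ∧ c.1.2.1 = a.1.2.1)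
/-- two vertices of a cell of part `i` and a vertex of a part other than `i`, `i + 1`, `i + 2` -/
def Q4 (a b c : Vx L K q) : Prop :=
  (a ≠ b ∧ a.1 = b.1) ∧ (c.1.1 ≠ a.1.1 ∧ c.1.1 ≠ a.1.1 + 1 ∧ c.1.1 ≠ a.1.1 + 2)

instance (a b c : Vx L K q) : Decidable (P a b c) := by unfold P; infer_instance
instance (a b c : Vx L K q) : Decidable (Q1 a b c) := by unfold Q1; infer_instance
instance (a b c : Vx L K q) : Decidable (Q2 a b c) := by unfold Q2; infer_instance
instance (a b c : Vx L K q) : Decidable (Q3 a b c) := by unfold Q3; infer_instance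
instance (a b c : Vx L K q) : Decidable (Q4 a b c) := by unfold Q4; infer_instance

def Q (a b c : Vx L K q) : Prop := Q1 a b c ∨ Q2 a b c ∨ Q3 a b c ∨ Q4 a b c
instance (a b c : Vx L K q) : Decidable (Q a b c) := by unfold Q; infer_instance

def S (a b c : Vx L K q) : Prop := P a b c ∨ Q a b c ∨ Q b c a ∨ Q c a b
instance (a b c : Vx L K q) : Decidable (S a b c) := by unfold S; infer_instance

theorem zc (j : ℕ) (hj : 0 < j) (hj2 : j < L) : ((j : ℕ) : ZMod L) ≠ 0 := by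
  rw [Ne, ZMod.natCast_eq_zero_iff]
  exact fun h => absurd (Nat.le_of_dvd hj h) (by omega)

theorem z10 (hL : 3 ≤ L) : (1 : ZMod L) ≠ 0 := by
  have := zc (L := L) 1 (by omega) (by omega)
  simpa using this

theorem z20 (hL : 3 ≤ L) : (2 : ZMod L) ≠ 0 := by
  have := zc (L := L) 2 (by omega) (by omega)
  simpa using this

theorem n1 (hL : 3 ≤ L) (i : ZMod L) : i + 1 ≠ i := fun h => z10 hL (by simpa using h)
theorem n2 (hL : 3 ≤ L) (i : ZMod L) : i + 2 ≠ i := fun h => z20 hL (by simpa using h)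
theorem n12 (hL : 3 ≤ L) (i : ZMod L) : i + 1 ≠ i + 2 := by
  intro h
  have h1 : (1 : ZMod L) = 2 := add_left_cancel h
  have h2 : (1 : ZMod L) = 0 := by
    have h3 : (1 : ZMod L) + 1 = 1 + 0 := by rw [one_add_one_eq_two, add_zero]; exact h1.symm
    exact add_left_cancel h3
  exact z10 hL h2

theorem Q_symm {a b c : Vx L K q} (h : Q a b c) : Q b a c := by
  unfold Q Q1 Q2 Q3 Q4 at *
  rcases h with ⟨⟨h1, h2⟩, h3⟩ | ⟨⟨h1, h2⟩, h3⟩ | ⟨⟨h1, h2⟩, h3⟩ | ⟨⟨h1, h2⟩, h3⟩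
  · exact Or.inl ⟨⟨h1.symm, h2.symm⟩, by rw [← h1]; exact h3⟩
  · exact Or.inr (Or.inl ⟨⟨h1.symm, h2.symm⟩, by rw [← h2]; exact h3⟩)
  · exact Or.inr (Or.inr (Or.inl ⟨⟨h1.symm, h2.symm⟩, by rw [← h2]; exact h3⟩))
  · exact Or.inr (Or.inr (Or.inr ⟨⟨h1.symm, h2.symm⟩, by rw [← h2]; exact h3⟩))

theorem P_rot {a b c : Vx L K q} (h : P a b c) : P b c a := ⟨h.2.1, fun h' => h.2.2 h'.symm, fun h' => h.1 h'.symm⟩
theorem P_swap {a b c : Vx L K q} (h : P a b c) : P b a c := ⟨fun h' => h.1 h'.symm, h.2.2, h.2.1⟩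

theorem S_rot {a b c : Vx L K q} (h : S a b c) : S b c a := by
  unfold S at *
  rcases h with h | h | h | h
  · exact Or.inl (P_rot h)
  · exact Or.inr (Or.inr (Or.inr h))
  · exact Or.inr (Or.inl h)
  · exact Or.inr (Or.inr (Or.inl h))

theorem S_swap {a b c : Vx L K q} (h : S a b c) : S b a c := by
  unfold S at *
  rcases h with h | h | h | h
  · exact Or.inl (P_swap h)
  · exact Or.inr (Or.inl (Q_symm h))
  · exact Or.inr (Or.inr (Or.inr (Q_symm h)))
  · exact Or.inr (Or.inr (Or.inl (Q_symm h)))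

theorem Q_ne (hL : 3 ≤ L) {a b c : Vx L K q} (h : Q a b c) : a ≠ b ∧ b ≠ c ∧ a ≠ c := by
  rcases h with ⟨⟨h1, h2⟩, h3⟩ | ⟨⟨h1, h2⟩, h3⟩ | ⟨⟨h1, h2⟩, h3⟩ | ⟨⟨h1, h2⟩, h3⟩
  · refine ⟨fun h => h2 (by rw [h]), fun h => h3.1 (by rw [← h, h1]), fun h => h3.1 (by rw [← h])⟩
  · refine ⟨h1, fun h => h3.2 (by rw [← h, h2]), fun h => h3.2 (by rw [← h])⟩
  · refine ⟨h1, fun h => n1 hL a.1.1 (by rw [← h3.1, ← h, h2]), fun h => n1 hL a.1.1 (by rw [← h3.1, ← h])⟩
  · refine ⟨h1, fun h => h3.1 (by rw [← h, h2]), fun h => h3.1 (by rw [← h])⟩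

theorem S_ne (hL : 3 ≤ L) {a b c : Vx L K q} (h : S a b c) : a ≠ b ∧ b ≠ c ∧ a ≠ c := by
  unfold S at h
  rcases h with h | h | h | h
  · exact ⟨fun h' => h.1 (by rw [h']), fun h' => h.2.1 (by rw [h']), fun h' => h.2.2 (by rw [h'])⟩
  · exact Q_ne hL h
  · obtain ⟨h1, h2, h3⟩ := Q_ne hL h
    exact ⟨h3.symm, h1, h2.symm⟩
  · obtain ⟨h1, h2, h3⟩ := Q_ne hL h
    exact ⟨h2, h3.symm, h1.symm⟩

/-- the 3-graph -/
def HG (L K q : ℕ) [NeZero L] [NeZero K] [NeZero q] : Finset (Finset (Vx L K q)) :=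
  univ.filter fun e => ∃ a b c : Vx L K q, S a b c ∧ ({a, b, c} : Finset (Vx L K q)) = e

theorem mem_HG' {e : Finset (Vx L K q)} :
    e ∈ HG L K q ↔ ∃ a b c : Vx L K q, S a b c ∧ ({a, b, c} : Finset (Vx L K q)) = e := by
  unfold HG
  simp only [mem_filter, mem_univ, true_and]

theorem mem_HG (hL : 3 ≤ L) {a b c : Vx L K q} : ({a, b, c} : Finset (Vx L K q)) ∈ HG L K q ↔ S a b c := by
  rw [mem_HG']
  constructor
  · rintro ⟨x, y, z, hS, he⟩
    obtain ⟨h1, h2, h3⟩ := S_ne hL hS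
    have hx : x ∈ ({a, b, c} : Finset (Vx L K q)) := by rw [← he]; simp
    have hy : y ∈ ({a, b, c} : Finset (Vx L K q)) := by rw [← he]; simp
    have hz : z ∈ ({a, b, c} : Finset (Vx L K q)) := by rw [← he]; simp
    simp only [mem_insert, mem_singleton] at hx hy hz
    rcases hx with rfl | rfl | rfl <;> rcases hy with rfl | rfl | rfl <;> rcases hz with rfl | rfl | rfl
    all_goals first
      | exact absurd rfl h1
      | exact absurd rfl h2
      | exact absurd rfl h3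
      | exact hS
      | exact S_swap hS
      | exact S_rot hS
      | exact S_rot (S_rot hS)
      | exact S_rot (S_swap hS)
      | exact S_swap (S_rot hS)
  · intro h
    exact ⟨a, b, c, h, rfl⟩

theorem HG_is3 (hL : 3 ≤ L) : Is3 (HG L K q) := by
  intro e he
  rw [mem_HG'] at he
  obtain ⟨x, y, z, hS, rfl⟩ := he
  obtain ⟨h1, h2, h3⟩ := S_ne hL hS
  exact Finset.card_eq_three.mpr ⟨x, y, z, h1, h3, h2, rfl⟩

theorem S_add {a b c : Vx L K q} (g : Vx L K q) : S (a + g) (b + g) (c + g) ↔ S a b c := by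
  have h0 : ∀ x y : Vx L K q, x + g = y + g ↔ x = y := fun x y => add_left_inj _
  have h3 : ∀ x : Vx L K q, (x + g).1 = x.1 + g.1 := fun x => rfl
  have h1 : ∀ x y : ZMod L × ZMod K × ZMod K, (x + y).1 = x.1 + y.1 := fun x y => rfl
  have h2 : ∀ x y : ZMod L × ZMod K × ZMod K, (x + y).2.1 = x.2.1 + y.2.1 := fun x y => rfl
  have e1 : ∀ x y : ZMod L, x + g.1.1 = y + g.1.1 + 1 ↔ x = y + 1 := by
    intro x y
    rw [add_right_comm]
    exact add_left_inj _
  have e2 : ∀ x y : ZMod L, x + g.1.1 = y + g.1.1 + 2 ↔ x = y + 2 := by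
    intro x y
    rw [add_right_comm]
    exact add_left_inj _
  have e3 : ∀ x y : ZMod L × ZMod K × ZMod K, x + g.1 = y + g.1 ↔ x = y := fun x y => add_left_inj _
  simp only [S, P, Q, Q1, Q2, Q3, Q4, h3, ne_eq, h0, e3, h1, h2, e1, e2, add_left_inj]

theorem HG_trans (hL : 3 ≤ L) : VertexTransitive (HG L K q) := by
  intro u v
  refine ⟨Equiv.addRight (v - u), by simp, fun e => ?_⟩
  constructor
  · intro he
    rw [mem_HG'] at he
    obtain ⟨x, y, z, hS, rfl⟩ := he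
    have : ({x, y, z} : Finset (Vx L K q)).map (Equiv.addRight (v - u)).toEmbedding =
        {x + (v - u), y + (v - u), z + (v - u)} := by
      simp [Finset.map_insert, Finset.map_singleton]
    rw [this, mem_HG hL, S_add]
    exact hS
  · intro he
    rw [mem_HG'] at he
    obtain ⟨x, y, z, hS, hxyz⟩ := he
    have h1 : e = {x + (u - v), y + (u - v), z + (u - v)} := by
      have h2 : (e.map (Equiv.addRight (v - u)).toEmbedding).map (Equiv.addRight (u - v)).toEmbedding = e := by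
        rw [Finset.map_map]
        convert Finset.map_refl using 2
        ext a <;> simp
      rw [← h2, ← hxyz]
      simp [Finset.map_insert, Finset.map_singleton]
    rw [h1, mem_HG hL, S_add]
    exact hS

end

end Pool.Agent.T2h36.CK
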